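import Pool.Agent.Helper25.HL.Goals4

/-!
# Project HL (MP_03bcbb_an), packet SS: summability of the costs
-/

namespace Pool.Agent.Helper85.HL

open Pool.Agent.Helper25.HL

theorem le_a {P : ℕ → ℕ} {K η : ℕ → ℝ} {J₁ : ℕ → ℕ} (Q : Pos P K η J₁) (i : ℕ) : i ≤ Q.a i := by
  induction i with
  | zero => exact Nat.zero_le _
  | succ i ih =>
    have h1 := Q.hba i
    have h2 := Q.hb i
    omega

theorem win_le {P : ℕ → ℕ} {K η : ℕ → ℝ} {J₁ : ℕ → ℕ} (Q : Pos P K η J₁) (i n : ℕ)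
    (hη : 0 < η i) :
    ∑ k ∈ Finset.range n, (if Q.a i ≤ k ∧ k < Q.b i then 1 / (2 : ℝ) ^ Q.Jw i else 0) ≤
      3 * (1 / 2) ^ i + η i := by
  have h2pos : (0 : ℝ) < 2 ^ Q.Jw i := by positivity
  have h1 : ∑ k ∈ Finset.range n, (if Q.a i ≤ k ∧ k < Q.b i then 1 / (2 : ℝ) ^ Q.Jw i else 0) ≤
      ((Q.b i - Q.a i : ℕ) : ℝ) * (1 / (2 : ℝ) ^ Q.Jw i) := by
    rw [← Finset.sum_filter, Finset.sum_const, nsmul_eq_mul]
    refine mul_le_mul_of_nonneg_right ?_ (by positivity)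
    have h3 : (Finset.range n).filter (fun k => Q.a i ≤ k ∧ k < Q.b i) ⊆
        Finset.Ico (Q.a i) (Q.b i) := by
      intro k hk
      rw [Finset.mem_filter] at hk
      rw [Finset.mem_Ico]
      exact hk.2
    have h4 := Finset.card_le_card h3
    rw [Nat.card_Ico] at h4
    exact_mod_cast h4
  refine h1.trans ?_
  have hb := Q.hb i
  have h5 : ((Q.b i - Q.a i : ℕ) : ℝ) ≤ 3 + η i * 2 ^ Q.Jw i := by
    have h6 : Q.b i - Q.a i = 2 + ⌈η i * 2 ^ Q.Jw i⌉₊ := by omega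
    rw [h6]
    push_cast
    have h7 := Nat.ceil_lt_add_one (a := η i * 2 ^ Q.Jw i) (by positivity)
    linarith
  have h8 : (1 : ℝ) / 2 ^ Q.Jw i ≤ (1 / 2) ^ i := by
    rw [div_pow, one_pow]
    exact one_div_le_one_div_of_le (by positivity) (pow_le_pow_right₀ (by norm_num) (Q.hJ i).2.1)
  calc ((Q.b i - Q.a i : ℕ) : ℝ) * (1 / (2 : ℝ) ^ Q.Jw i)
      ≤ (3 + η i * 2 ^ Q.Jw i) * (1 / (2 : ℝ) ^ Q.Jw i) :=
        mul_le_mul_of_nonneg_right h5 (by positivity)
    _ = 3 * (1 / (2 : ℝ) ^ Q.Jw i) + η i := by field_simp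
    _ ≤ 3 * (1 / 2) ^ i + η i := by linarith

theorem ss : S_SS := by
  classical
  intro P K η J₁ Q D hη hs hL
  refine summable_of_sum_range_le (c := 2 + 2 + (6 + ∑' i, η i)) (fun k => by positivity) ?_
  intro n
  have hgeo : ∀ n : ℕ, ∑ k ∈ Finset.range n, ((1 : ℝ) / 2) ^ k ≤ 2 := by
    intro n
    have h1 := Summable.sum_le_tsum (Finset.range n) (fun k _ => by positivity)
      summable_geometric_two
    rw [tsum_geometric_two] at h1
    exact h1
  have hle : ∀ k ∈ Finset.range n, 1 / (2 : ℝ) ^ (D k).J ≤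
      ((if k ≤ 1 then 1 else 0) + (1 / 2) ^ k) + ∑ i ∈ Finset.range n,
        (if Q.a i ≤ k ∧ k < Q.b i then 1 / (2 : ℝ) ^ Q.Jw i else 0) := by
    intro k hk
    rw [Finset.mem_range] at hk
    have hnn : 0 ≤ ∑ i ∈ Finset.range n,
        (if Q.a i ≤ k ∧ k < Q.b i then 1 / (2 : ℝ) ^ Q.Jw i else 0) :=
      Finset.sum_nonneg fun i _ => by split_ifs <;> positivity
    have hpk : (0 : ℝ) < (1 / 2) ^ k := by positivity
    rcases Nat.lt_or_ge 1 k with h1 | h1
    · rw [if_neg (by omega), zero_add]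
      by_cases hw : ∃ i, Q.a i ≤ k ∧ k < Q.b i
      · obtain ⟨i, hi⟩ := hw
        rw [hL.hJw i k hi.1 hi.2]
        have hi2 : i ∈ Finset.range n := by
          rw [Finset.mem_range]
          have := le_a Q i
          omega
        have h3 : (if Q.a i ≤ k ∧ k < Q.b i then 1 / (2 : ℝ) ^ Q.Jw i else 0) ≤
            ∑ i ∈ Finset.range n,
              (if Q.a i ≤ k ∧ k < Q.b i then 1 / (2 : ℝ) ^ Q.Jw i else 0) :=
          Finset.single_le_sum (f := fun i => if Q.a i ≤ k ∧ k < Q.b i then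
            1 / (2 : ℝ) ^ Q.Jw i else 0) (fun i _ => by split_ifs <;> positivity) hi2
        rw [if_pos hi] at h3
        linarith
      · rw [hL.hJb k (by omega) (fun i hi => hw ⟨i, hi⟩)]
        rw [div_pow, one_pow]
        linarith
    · rw [if_pos h1, hL.hJ0 k h1, pow_zero, div_one]
      linarith
  refine (Finset.sum_le_sum hle).trans ?_
  rw [Finset.sum_add_distrib, Finset.sum_add_distrib]
  have e1 : ∑ k ∈ Finset.range n, (if k ≤ 1 then (1 : ℝ) else 0) ≤ 2 := by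
    rw [← Finset.sum_filter, Finset.sum_const, nsmul_eq_mul, mul_one]
    have h3 : (Finset.range n).filter (fun k => k ≤ 1) ⊆ Finset.range 2 := by
      intro k hk
      rw [Finset.mem_filter] at hk
      rw [Finset.mem_range]
      omega
    have h4 := Finset.card_le_card h3
    rw [Finset.card_range] at h4
    exact_mod_cast h4
  have e2 := hgeo n
  have e3 : ∑ k ∈ Finset.range n, ∑ i ∈ Finset.range n,
      (if Q.a i ≤ k ∧ k < Q.b i then 1 / (2 : ℝ) ^ Q.Jw i else 0) ≤ 6 + ∑' i, η i := by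
    rw [Finset.sum_comm]
    refine (Finset.sum_le_sum fun i _ => win_le Q i n (hη i)).trans ?_
    rw [Finset.sum_add_distrib, ← Finset.mul_sum]
    have h5 := hs.sum_le_tsum (Finset.range n) (fun i _ => (hη i).le)
    have h6 := hgeo n
    linarith
  linarith

end Pool.Agent.Helper85.HL
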