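import Pool.Agent.Helper25.HL.Defs

/-!
# Project HL (MP_03bcbb_an), packet RL: the code is contractive from `l1` to `l2`
-/

namespace Pool.Agent.Helper85.HL

open Pool.Agent.Helper25.HL

theorem abs_Rm {p q : ℕ} (σ : Fin p → Fin q → Bool) (a : Fin p) (t : Fin q) :
    |Rm σ a t| = 1 / Real.sqrt p := by
  unfold Rm
  rw [abs_div, abs_of_nonneg (Real.sqrt_nonneg _)]
  congr 1
  split_ifs <;> simp

theorem rl : S_RL := by
  intro p q σ hp β
  have hp0 : (0 : ℝ) < p := by exact_mod_cast hp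
  have h1 : ∀ a : Fin p, ‖RV σ β a‖ ^ 2 ≤ (l1 β) ^ 2 / p := by
    intro a
    have h2 : ‖RV σ β a‖ ≤ l1 β / Real.sqrt p := by
      change ‖∑ t, (Rm σ a t : ℂ) * β t‖ ≤ _
      refine (norm_sum_le _ _).trans (le_of_eq ?_)
      unfold l1
      rw [Finset.sum_div]
      refine Finset.sum_congr rfl fun t _ => ?_
      rw [norm_mul, Complex.norm_real, Real.norm_eq_abs, abs_Rm]
      ring
    calc ‖RV σ β a‖ ^ 2 ≤ (l1 β / Real.sqrt p) ^ 2 :=
          pow_le_pow_left₀ (norm_nonneg _) h2 2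
      _ = (l1 β) ^ 2 / p := by rw [div_pow, Real.sq_sqrt hp0.le]
  calc Pool.Agent.Helper25.HL.sq (RV σ β) ≤ ∑ _a : Fin p, (l1 β) ^ 2 / p := Finset.sum_le_sum fun a _ => h1 a
    _ = (l1 β) ^ 2 := by
      rw [Finset.sum_const, Finset.card_univ, Fintype.card_fin, nsmul_eq_mul]
      field_simp

end Pool.Agent.Helper85.HL
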